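import Mathlib
import Pool.Agent.H69.W.TayI
import Pool.Agent.H57.W.ExitD

set_option autoImplicit false
open Finset Metric Filter Topology

/-! # The Taylor coefficients of the difference of the two worlds (`e = 1`)

`fM` : the mean over the colour of the tile `(xs, w)` in the ceiling of the difference of the two worlds. -/

namespace Pool.Agent.H46.W

open Pool.Agent.H75.Perc hiding AR VV
open Pool.Agent.H75.TwoArm hiding EF
open Pool.Agent.Q1
open Pool.Agent.H33.Q1 (lt tt lt_inj tt_lt)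
open Pool.Agent.H40.R45 (aT bT aT_diff bT_diff kapT kapT_diff)
open Pool.Agent.Q1.M6b.ABW (cT)
open Pool.Agent.H54.W Pool.Agent.H34.W Pool.Agent.H25.W
open Pool.Agent.H76.W
open Pool.Agent.H42.Sp (Ix kt rt)
open Pool.Agent.H81.G1 (zt)
open Pool.Agent.H30.W (Slit SlitEnv)
open Pool.Agent.H32.W.Win
open Pool.Agent.H64.W (OutC)
open Pool.Agent.H85.W (Gz)
open Pool.Agent.H81.W (OutZ)
open Pool.Agent.H86.W (tsys TG)
open Pool.Agent.H69.W (qS qx_qS str_qS wts_bd row_not_cap)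
open Pool.Agent.H57.W (setC setO setH setP exq XTE XTS WTE Gz_XTE sx_XTE)

variable {D : HWin}

/-- the weight of the open tile in the ceiling -/
noncomputable def qe (D : HWin) (xs : ℤ) : ℂ := Win.wal xs D.w w6

/-- **The sum over the two colours of the tile in the ceiling.** -/
noncomputable def fM (O : HOut D) (ct : ℤ × ℤ) (xs s : ℤ) (t : ℂ) : ℂ :=
  (1 - qe D xs) * fV (setC D xs false) (FI (setO O xs false) ct) w6 xs s t +
    qe D xs * fV (setC D xs true) (FI (setO O xs true) ct) w6 xs s t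

/-- the difference of the two worlds for one colour -/
theorem fV_setC (O : HOut D) (S : Slit D) {ct : ℤ × ℤ} (hc : OutC D ct)
    (P : Finset Ix) (hP : ∀ k ∈ P, CPH D S.τ k) (b : Bool) (H : HPos (setC D S.xs b) S.τ)
    (hPb : ∀ k ∈ P, CPH (setC D S.xs b) S.τ k) {t : ℂ} (ht : t ∈ ball (0 : ℂ) (1 / 4)) :
    fV (setC D S.xs b) (FI (setO O S.xs b) ct) w6 S.xs S.y0 t = sgc S.xs S.y0 * kapT t *
      Gz (XTH (setO O S.xs b) H P hPb) (qS S P t) (lt (S.xs, S.y0)) ct := by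
  have h1 := S.s1
  have h2 := S.s2
  have up := S.up
  have r2 := S.r2
  have p1 := S.p_le
  have q1 := S.le_q
  have h3 := S.fl S.xs (by omega) (by omega)
  rw [fV_eq_inc (D := setC D S.xs b) (setO O S.xs b) (ct := ct) hc (x0 := S.xs) (s := S.y0)
    (by show D.p ≤ S.xs; omega) (by show S.xs < D.q; omega) (by show D.a S.xs ≤ S.y0; omega)
    (by show S.y0 + 1 ≤ D.w; omega) (x₁ := S.x1) (x₂ := S.x2) S.comp (by omega) (by omega) ht,
    XV_inc]
  obtain ⟨c1, c2⟩ := row_not_cap S hP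
  unfold qS
  rw [Gz_tied c1 c2 (show plab ct ∉ (setC D S.xs b).GA ∨ lab ct ∉ (setC D S.xs b).GA from hc.symm)]
  change kapT t * (sgc S.xs S.y0 * Gz (HWin.XH (setO O S.xs b) S.τ) (opw (aS D S.τ (aT t) (bT t)
    (cT t) w6 S.xs (S.y0 + 1))) (lt (S.xs, S.y0)) ct) = _
  ring

/-- the weight of the tile in the ceiling -/
theorem qS_exl (S : Slit D) {P : Finset Ix} (hP : ∀ k ∈ P, CPH D S.τ k) (t : ℂ) :
    qS S P t (lt (S.xs, D.w)) = qe D S.xs := by
  have up := S.up
  have r2 := S.r2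
  have hn : ∀ k ∈ P, lt (kt k) ≠ lt (S.xs, D.w) := by
    intro k hk h4
    have h5 := lt_inj h4
    rcases cap_tiles (hP k hk) (Or.inl rfl) with h8 | ⟨-, -, h8, -⟩
    · rw [h5] at h8
      have h9 : D.InE S.τ S.xs D.w := Or.inr h8
      have := (h9.z S.pos).2.2.2
      omega
    · rw [h5] at h8
      simp only at h8
      have h9 := S.τ_in S.s1.le (by have := S.s2; omega)
      omega
  unfold qS qe
  rw [qTg_other hn, opw_lt]
  congr 1
  unfold aS str
  rw [if_pos ⟨rfl, show S.y0 + 1 ≤ D.w by omega⟩]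

/-- **The sum over the two colours** in an environment with the random tile in the ceiling. -/
theorem fM_Gz (O : HOut D) (S : Slit D) {ct : ℤ × ℤ} (hc : OutC D ct)
    (P : Finset Ix) (hP : ∀ k ∈ P, CPH D S.τ k) {t : ℂ} (ht : t ∈ ball (0 : ℂ) (1 / 4)) :
    fM O ct S.xs S.y0 t = sgc S.xs S.y0 * kapT t *
      Gz (XTS S O P hP) (qS S P t) (lt (S.xs, S.y0)) ct := by
  have up := S.up
  have r2 := S.r2
  have hne : lt (S.xs, S.y0) ≠ lt (S.xs, D.w) := by
    intro h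
    have h2 := lt_inj h
    simp only [Prod.mk.injEq, true_and] at h2
    omega
  unfold XTS
  rw [Gz_XTE hne]
  unfold exq
  rw [qS_exl S hP]
  unfold fM
  rw [fV_setC O S hc P hP false (setH S.pos S.xs false) (setP hP S.xs false) ht,
    fV_setC O S hc P hP true (setH S.pos S.xs true) (setP hP S.xs true) ht]
  ring

/-- **The Taylor coefficients of the difference of the two worlds**, parity `e = 1` : the mean over the colour
of the tile in the ceiling. -/
theorem fV_tay1 (A s μ : ℕ) : ∃ Dd : ℝ, 0 ≤ Dd ∧ ∀ R : ℝ, 1 ≤ R →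
    ∀ (D : HWin) (O : HOut D) (S : Slit D) (em ct : ℤ × ℤ) (L : ℤ), S.e = 1 → OutC D ct →
    SlitEnv S (XTS S O (CPHs D S.τ) (cphs_mem S.pos)) (WTE D S.τ (CPHs D S.τ) O.Wo S.xs) ∅ em →
    OutZ S (XTS S O (CPHs D S.τ) (cphs_mem S.pos)) em ct → SizeH D S A s R L →
    (tsys D S.τ (TG D S.τ)).Away L (lab ct) →
    ‖iteratedDeriv μ (fun z : ℂ => fM O ct S.xs S.y0
      (z * ((R ^ (-(2 / 3) : ℝ) : ℝ) : ℂ))) 0‖ ≤ Dd * R ^ ((2 / 5 : ℝ) - 2 / 3) := by
  obtain ⟨Dd, hD0, hD⟩ := tay_top (ρ := 1 / 2) (Λ := 16) (B0 := 4) (by norm_num) (by norm_num)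
    (by norm_num) A s 1 μ
  refine ⟨Dd, hD0, ?_⟩
  intro R hR D O S em ct L hS hc hE hZ hsz haw
  have hP := cphs_mem (D := D) S.pos
  have key := (hD R hR (fun z => sgc S.xs S.y0 * kapT z) aT bT cT (kapT_diff.const_mul _) aT_diff
    bT_diff Pool.Agent.Q1.M6b.ABW.cT_diff (fun z hz => by
      rw [norm_mul, norm_sgc, one_mul]
      exact (wts_bd hz).1) (fun z hz => (wts_bd hz).2.1) (fun z hz => (wts_bd hz).2.2.1)
    (fun i z hz => (wts_bd hz).2.2.2 i) D O S _ _ em ct L (sx_XTE hS O hP) hE hZ hsz haw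
    (qS S (CPHs D S.τ)) (fun z => qx_qS S _ z) (fun z => (str_qS hP z).1)
    (fun z => (str_qS hP z).2)).2
  have e0 : ((2 / 5 : ℝ) - 2 / 3 * (1 : ℕ)) = (2 / 5 : ℝ) - 2 / 3 := by push_cast; ring
  rw [e0] at key
  refine le_trans (le_of_eq ?_) key
  congr 1
  refine Filter.EventuallyEq.iteratedDeriv_eq μ ?_
  have hcont : Tendsto (fun z : ℂ => z * ((R ^ (-(2 / 3) : ℝ) : ℝ) : ℂ)) (𝓝 0) (𝓝 0) := by
    have h1 : Continuous fun z : ℂ => z * ((R ^ (-(2 / 3) : ℝ) : ℝ) : ℂ) := by fun_prop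
    have h2 := h1.tendsto 0
    rwa [zero_mul] at h2
  filter_upwards [hcont.eventually (isOpen_ball.mem_nhds (mem_ball_self (by norm_num : (0 : ℝ) < 1 / 4)))]
    with z hz
  exact fM_Gz O S hc _ hP hz

end Pool.Agent.H46.W
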