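import Mathlib
import Pool.Agent.H46.W.TayII
import Pool.Agent.H64.W.SizeK

set_option autoImplicit false
open Finset Metric Filter Topology

/-! # The Taylor coefficients for the windows of coarse data, parity `e = 1`

`tay_K1` : for `v / n` in a compact set of the interior, `v` off the vertical strips, the Taylor coefficients of the
mean `fM` over the two colours of the wall tile are small, uniformly in everything outside of the window. The outside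
enters through the hypothesis `hout` (`SlitEnv`, `OutZ` for the rows with a string). -/

namespace Pool.Agent.H46.W

open Pool.Agent.H75.Perc hiding AR VV
open Pool.Agent.H75.TwoArm hiding EF
open Pool.Agent.Q1
open Pool.Agent.Q1.M4 (lat)
open Pool.Agent.H54.W (CD HWin Win HOut)
open Pool.Agent.H20.W (OmC)
open Pool.Agent.H32.W.Bd (Zv)
open Pool.Agent.H76.W
open Pool.Agent.H30.W (Slit SlitEnv)
open Pool.Agent.H64.W (OutC NumS size_K)
open Pool.Agent.H81.W (OutZ)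
open Pool.Agent.H57.W (XTS WTE)

/-- the scale factor tends to `0` -/
lemma eventually_scale (Dd : ℝ) {ε : ℝ} (hε : 0 < ε) :
    ∃ n1 : ℕ, ∀ n : ℤ, (n1 : ℤ) ≤ n → 1 ≤ (n : ℝ) ∧ Dd * (n : ℝ) ^ ((2 / 5 : ℝ) - 2 / 3) ≤ ε := by
  have h1 : Tendsto (fun x : ℝ => Dd * x ^ ((2 / 5 : ℝ) - 2 / 3)) atTop (𝓝 (Dd * 0)) := by
    refine Tendsto.const_mul _ ?_
    have := tendsto_rpow_neg_atTop (y := (2 / 3 : ℝ) - 2 / 5) (by norm_num)
    refine this.congr fun x => ?_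
    congr 1
    ring
  rw [mul_zero] at h1
  obtain ⟨x0, hx0⟩ := (h1.eventually (ge_mem_nhds hε)).exists_forall_of_atTop
  refine ⟨⌈x0⌉₊ + 1, fun n hn => ?_⟩
  have h2 : (x0 : ℝ) ≤ ⌈x0⌉₊ := Nat.le_ceil _
  have h3 : ((⌈x0⌉₊ + 1 : ℤ) : ℝ) ≤ n := by exact_mod_cast hn
  push_cast at h3
  have h4 : (0 : ℝ) ≤ ⌈x0⌉₊ := Nat.cast_nonneg _
  exact ⟨by linarith, hx0 _ (by linarith)⟩

/-- **The Taylor coefficients**, parity `e = 1`. -/
theorem tay_K1 (C : CD) {K : Set ℂ} (hK : K ⊆ OmC C) (hKc : IsCompact K) {η : ℝ} (hη : 0 < η)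
    (μ : ℕ) {ε : ℝ} (hε : 0 < ε) : ∃ n0 : ℕ, ∀ n : ℤ, (n0 : ℤ) ≤ n → ∀ (he : n % 2 = 0) (h8 : 8 ≤ n)
    (cr : ℤ → Bool) (v : ℤ × ℤ), lat v / ((n : ℝ) : ℂ) ∈ K → v ∉ Zv C η n → ∀ kl kr : Bool,
    (∀ y, v.2 < y → cr y = kl) → (∀ y, y < v.2 → cr y = kr) →
    ∀ (O : HOut (C.win n he h8 cr).toH) (ct : ℤ × ℤ), OutC (C.win n he h8 cr).toH ct →
    (∀ (S : Slit (C.win n he h8 cr).toH) (L : ℤ), S.e = 1 → S.xs = -v.2 - 1 → S.y0 = v.1 - 1 →
      S.kl = kl → S.kr = kr → NumS S L → ∃ em,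
      SlitEnv S (XTS S O (CPHs (C.win n he h8 cr).toH S.τ) (cphs_mem S.pos))
        (WTE (C.win n he h8 cr).toH S.τ (CPHs (C.win n he h8 cr).toH S.τ) O.Wo S.xs) ∅ em ∧
      OutZ S (XTS S O (CPHs (C.win n he h8 cr).toH S.τ) (cphs_mem S.pos)) em ct ∧
      lab ct ∉ (C.win n he h8 cr).toH.GA) →
    ‖iteratedDeriv μ (fun z : ℂ => fM O ct (-v.2 - 1) (v.1 - 1)
      (z * (((n : ℝ) ^ (-(2 / 3) : ℝ) : ℝ) : ℂ))) 0‖ ≤ ε := by
  obtain ⟨A, s, n1, hS⟩ := size_K C hK hKc hη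
  obtain ⟨Dd, hD0, hD⟩ := fV_tay1 A s μ
  obtain ⟨n2, hn2⟩ := eventually_scale Dd hε
  refine ⟨max n1 n2, fun n hn he h8 cr v hv hvZ kl kr hkl hkr O ct hct hout => ?_⟩
  obtain ⟨h1, h2⟩ := hn2 n (by push_cast at hn; omega)
  obtain ⟨S, L, s1, s2, s3, s4, s5, s6, s7, s8⟩ := hS n (by push_cast at hn; omega) he h8 cr v hv hvZ
    kl kr hkl hkr 1 le_rfl (fun h => absurd h one_ne_zero)
  obtain ⟨em, e1, e2, e3⟩ := hout S L s3 s1 s2 s4 s5 s8
  have key := hD n h1 _ O S em ct L s3 hct e1 e2 s7 (away_ct S s7 e3)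
  rw [s1, s2] at key
  exact key.trans h2

end Pool.Agent.H46.W
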