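import Mathlib
import Pool.Agent.H46.W.TayK1
import Pool.Agent.H57.W.Oz
import Pool.Agent.H57.W.D8
import Pool.Agent.H81.W.OutI
import Pool.Agent.H76.W.ExitC
import Pool.Agent.H24.W.EmS

set_option autoImplicit false
open Finset Metric Filter Topology

/-! # The Taylor coefficients for the canonical boxes, parity `e = 1`

`outTE` : the outside facts for the tied environment with the random tile in the ceiling. `tay_K1z` : the Taylor coefficients of helper32's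
`f2` for the windows `Dz` at the scale `2 m`, in the form `KeyAB.tay` of helper44. -/

namespace Pool.Agent.H46.W

open Pool.Agent.H75.Perc hiding AR VV
open Pool.Agent.H75.TwoArm hiding EF
open Pool.Agent.Q1 Pool.Agent.H33.Q1
open Pool.Agent.Q1.M4 (lat)
open Pool.Agent.H54.W (CD HWin Win HOut)
open Pool.Agent.H20.W (OmC Th crz Dz)
open Pool.Agent.H32.W.Bd (Zv)
open Pool.Agent.H32.W.Win (f2)
open Pool.Agent.H76.W
open Pool.Agent.H30.W (Slit SlitEnv ELz EUz RZ)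
open Pool.Agent.H64.W (OutC NumS size_K)
open Pool.Agent.H81.W (OutZ DH DB emH outZ_SX)
open Pool.Agent.H85.W (BP rtW ctW Wo ow)
open Pool.Agent.H57.W (XTS WTE ETE sx_XTE slitEnv_XTE BPz Oz OzH ctz hin_z f2_fM)

variable {C : CD} {c0 : Bool}

/-- **The outside facts**, parity `e = 1`. -/
theorem outTE (θ : Th C c0) (B : BP C c0) (cr : ℤ → Bool) (hcr : ∀ y, y ≠ B.r → cr y = crz c0 B.r y)
    (hin : ∀ x y, (DB B cr).InZ x y → (ow θ B).Box x y) (hp : (B.X2 - (B.n * C.W + (1 : ℕ))) % 2 = 0)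
    (O : HOut (DH B cr)) (hWo : O.Wo = (Wo θ B (DB B cr) (DB B cr).fill).map rotL)
    (hc : O.c0 = rotc (rtW B)) (S : Slit (DH B cr)) (hS : S.e = 1) (hxs : S.xs = -B.r - 1)
    (h1 : lt (emH θ B S.τ) ∉ RZ S.N S.M S.x1 S.y0 S.c0)
    (h2 : lt (emH θ B S.τ) ∉ ELz S ∅ ∪ EUz S ∅) :
    SlitEnv S (XTS S O (CPHs (DH B cr) S.τ) (cphs_mem S.pos))
      (WTE (DH B cr) S.τ (CPHs (DH B cr) S.τ) O.Wo S.xs) ∅ (lt (emH θ B S.τ)) ∧
    OutZ S (XTS S O (CPHs (DH B cr) S.τ) (cphs_mem S.pos)) (lt (emH θ B S.τ)) (rotc (ctW θ B)) ∧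
    lab (rotc (ctW θ B)) ∉ (DH B cr).GA := by
  have hP := cphs_mem (D := DH B cr) S.pos
  have hr := B.r0
  obtain ⟨k1, k2, k3⟩ := outZ_SX θ B S
    (by rw [hS]; exact exitC_fill hcr cr hcr hin (e := 1) le_rfl hp) hxs
    (fun h => by rw [hcr 0 (by omega)]; unfold crz; rw [if_pos hr, h]) O hWo hc hP
    (sx_XTE hS O hP) rfl rfl (fun h => by omega)
  exact ⟨slitEnv_XTE hS O hP k2 h1 h2, k1, k3⟩

/-- **The Taylor coefficients** for the canonical boxes, parity `e = 1`. -/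
theorem tay_K1z (θ : Th C c0) {K : Set ℂ} (hK : K ⊆ OmC C) (hKc : IsCompact K)
    {η : ℝ} (hη : 0 < η) (k : ℕ) {ε : ℝ} (hε : 0 < ε) : ∃ m1 : ℕ, ∀ m : ℕ, m1 ≤ m →
    ∀ (he : (2 * (m : ℤ)) % 2 = 0) (h8 : 8 ≤ 2 * (m : ℤ)) (v : ℤ × ℤ),
    lat v / (((2 * m : ℕ) : ℝ) : ℂ) ∈ K → v ∉ Zv C η (2 * (m : ℤ)) →
    (v.2 + 1 + 2 * (m : ℤ) * C.W) % 2 = (if c0 then 0 else 1) →
    ∀ hr : 0 < v.2 ∧ v.2 + 1 < 2 * (m : ℤ) * C.H,
    ‖iteratedDeriv k (fun z : ℂ => f2 (Dz C (2 * (m : ℤ)) c0 he h8 v.2) (OzH he h8 hr θ)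
      (ctz he h8 hr θ) v.2 (v.1 - 1) (z * (((((2 * m : ℕ) : ℝ) ^ (-(2 / 3) : ℝ) : ℝ)) : ℂ))) 0‖ ≤ ε := by
  obtain ⟨n0, H⟩ := tay_K1 C hK hKc hη k hε
  refine ⟨n0, fun m hm he h8 v hv hvZ hpar hr => ?_⟩
  have hcast : (((2 * (m : ℤ) : ℤ)) : ℝ) = ((2 * m : ℕ) : ℝ) := by push_cast; ring
  have key := H (2 * (m : ℤ)) (by omega) he h8 (crz c0 v.2) v (by rw [hcast]; exact hv) hvZ (!c0) c0
    (fun y hy => by unfold crz; rw [if_neg (by omega)]) (fun y hy => by unfold crz; rw [if_pos hy])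
    (OzH he h8 hr θ) (ctz he h8 hr θ)
    (Or.inl (Pool.Agent.H81.W.labH θ (BPz C c0 he h8 hr) (hin_z he h8 hr θ)))
    (fun S L s1 s2 _ _ _ s6 => by
      have e1 := Pool.Agent.H24.W.emH_R (cr := crz c0 v.2) θ (BPz C c0 he h8 hr) s6 S.τ
      have e2 := Pool.Agent.H24.W.emH_B (cr := crz c0 v.2) θ (BPz C c0 he h8 hr) s6 S.τ ∅
      refine ⟨_, outTE θ (BPz C c0 he h8 hr) (crz c0 v.2) (fun _ _ => rfl) (hin_z he h8 hr θ) ?_
        (OzH he h8 hr θ) rfl rfl S s1 s2 e1 e2⟩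
      have h3 := (BPz C c0 he h8 hr).par
      have h4 : (BPz C c0 he h8 hr).r = v.2 := rfl
      have h5 : (BPz C c0 he h8 hr).n = 2 * (m : ℤ) := rfl
      rw [h4] at h3
      rw [h5]
      push_cast
      cases c0
      · simp only [Bool.false_eq_true, if_false] at h3 hpar
        omega
      · simp only [if_true] at h3 hpar
        omega)
  rw [hcast] at key
  refine le_trans (le_of_eq ?_) key
  congr 2
  funext z
  exact f2_fM _ _ _ _ _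

end Pool.Agent.H46.W
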