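import Mathlib
import Pool.Agent.H76.W.SlitZ
import Pool.Agent.H86.W.TIns

set_option autoImplicit false
open Finset

/-! # The runs of ties of a window with a slit

`row_slit` : the row of a slit is a straight row of helper86. `sepZ_slit` : the half boxes are separated from
the row (`SepZ` of helper30, both heights). `reg_slit` : the regions over the runs are natural labels of
helper76. `awy_exl`, `awy_row`, `awy_str`, `awy_GA` : labels away from the runs. `reg_ELz` : the regions do
not meet the row and the labels below the row. `cap_slit` : `TiCap`. -/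

namespace Pool.Agent.H46.W

open Pool.Agent.Q1 Pool.Agent.H33.Q1
open Pool.Agent.H54.W Pool.Agent.H54.W.HWin Pool.Agent.H76.W Pool.Agent.H86.W
open Pool.Agent.H46.G1 (Wp mem_Wp)
open Pool.Agent.H46.Sp (TSys)
open Pool.Agent.H42.Sp (Ix kt rt)
open Pool.Agent.H69.M6b (lbt)
open Pool.Agent.H30.Mid (lbt_lt RS)
open Pool.Agent.H30.W (SepZ Slit ELz EUz mem_ELz mem_EUz XS)

variable {D : HWin} {S : Slit D} {G : Finset ℤ} {L L2 K u t x y y' : ℤ} {P : Finset Ix}
  {B : Finset (ℤ × ℤ)}

/-- the row of a slit -/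
theorem row_slit (S : Slit D) : RowH D S.τ S.x1 S.x2 S.y0 :=
  rowH_seg S.comp (by have := S.up; have := S.r2; omega)
    (fun x h1 h2 => by have := S.fl x h1 h2; have := S.r2; omega)

section geo

variable (hG : TLev D S.τ G) (hF : FatH D L2) (hL : L < L2)

include hG hF hL

/-- **The half boxes are separated from the row.** -/
theorem sepZ_slit [Nonempty {g : ℤ // g ∈ G}] {E W v : Finset (ℤ × ℤ)}
    (hO : (tsys D S.τ G).Ok E W L) (hK : 20 ≤ K) (hKL : ∀ a, ((tsys D S.τ G).N a : ℤ) < K * L)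
    (hv : v ⊆ (tsys D S.τ G).Ti) :
    SepZ (v.biUnion ((tsys D S.τ G).Bt K v)) S.N S.x1 S.y0 S.k ∧
      SepZ (v.biUnion ((tsys D S.τ G).Bt K v)) S.N S.x1 (S.y0 + 1) S.k := by
  have key : ∀ y', (y' = S.y0 ∨ y' = S.y0 + 1) →
      SepZ (v.biUnion ((tsys D S.τ G).Bt K v)) S.N S.x1 y' S.k := by
    intro y' hy' x y hxy
    rw [lbt_lt] at hxy
    have h1 := btT_sep S.pos hG hF (row_slit S) hL hO hK hKL hv hy' hxy
    rw [S.N_eq, show S.x1 + (S.x2 - S.x1) - x = S.x2 - x by ring]
    rcases h1 with h | h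
    · exact Or.inl h
    · exact Or.inr (Or.inl h)
  exact ⟨key _ (Or.inl rfl), key _ (Or.inr rfl)⟩

/-- **The regions over the runs are natural labels.** -/
theorem reg_slit (h1 : S.x1 + L < S.xs) (h2 : S.xs + L + 1 < S.x2) :
    ∀ a u t, 0 ≤ u → (tsys D S.τ G).Rg L a u t →
      lt ((tsys D S.τ G).tl a u t) ∈ BKz D S.τ (ls0 S) := by
  intro a u t hu hr
  have h3 := trg_bulk S.pos hG hF hL hu hr
  have h4 := trg_str S.pos hG hF (row_slit S) hL h1 h2 hr
  generalize (tsys D S.τ G).tl a u t = T at h3 h4 ⊢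
  obtain ⟨x, y⟩ := T
  simp only at h3 h4
  unfold BKz
  rw [mem_sdiff, mem_BKs S.pos, mem_ls0]
  have h5 := (h3.inU S.pos).1
  have h6 := h3.2.2.1
  exact ⟨⟨h5, by omega⟩, fun h7 => h4 h7.1⟩

/-- the regions over the runs do not meet the row and the labels below the row -/
theorem reg_ELz {a : Rh G} (hr : (tsys D S.τ G).Rg L a u t) :
    lt ((tsys D S.τ G).tl a u t) ∉ RS S.N S.x1 S.y0 ∪ ELz S B := by
  intro hcon
  have hN := S.N_eq
  have h3 := trg_rows S.pos hG hF (row_slit S) hL hr
  generalize (tsys D S.τ G).tl a u t = T at h3 hcon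
  obtain ⟨x, y⟩ := T
  simp only at h3
  rw [mem_union, ← lbt_lt, Pool.Agent.H30.W.mem_RSx, mem_ELz] at hcon
  rcases hcon with h | h
  · have := h3 (by omega) (by omega); omega
  · have := h3 (by omega) (by omega); omega

/-- the label in the ceiling is away from the runs -/
theorem awy_exl (h1 : S.x1 + L < S.xs) (h2 : S.xs + L + 1 < S.x2) :
    (tsys D S.τ G).Away L (exl S) :=
  away_strT S.pos hG hF (row_slit S) hL h1 h2

/-- the labels in the column of the string are away from the runs -/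
theorem awy_str (h1 : S.x1 + L < S.xs) (h2 : S.xs + L + 1 < S.x2) :
    (tsys D S.τ G).Away L (lt (S.xs, y)) :=
  away_strT S.pos hG hF (row_slit S) hL h1 h2

/-- the labels near the row are away from the runs -/
theorem awy_row (h1 : S.x1 - 1 ≤ x) (h2 : x ≤ S.x2) (hy : y ≤ S.y0 + 1) :
    (tsys D S.τ G).Away L (lt (x, y)) :=
  away_rowsT S.pos hG hF (row_slit S) hL h1 h2 hy

end geo

end Pool.Agent.H46.W
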